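import Pool.Agent.H21.Cub4
import Pool.Agent.H21.Cub5
import Pool.Agent.H21.Cub6

namespace Pool.Agent.Results.MP_d6bc72_co.Yes

open Pool.Agent.H21.Cub Finset

theorem result (V D Sq Cu : Type) [Finite V] [Finite D] [Finite Sq] [Finite Cu]
    (X : Cx V D Sq Cu) (hs : X.SimplyConnected) (hf : X.FlagLinks) :
    ∃ S : Finset (Fin 3 → ℤ), S.card = Nat.card Cu ∧ (latBdry S).ncard ≤ X.bdry.ncard := by
  classical
  have := Fintype.ofFinite V
  have := Fintype.ofFinite Cu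
  have := Fintype.ofFinite Sq
  let G : SimpleGraph (Set (Set V)) :=
    { Adj := fun h h' => ∃ C i j, i ≠ j ∧ X.hc C i = h ∧ X.hc C j = h'
      symm := ⟨fun _ _ ⟨C, i, j, h, h1, h2⟩ => ⟨C, j, i, h.symm, h2, h1⟩⟩
      loopless := ⟨fun _ ⟨C, i, j, h, h1, h2⟩ => Cx.hc_ne hf hs C h (h1.trans h2.symm)⟩ }
  have cr : ∀ h h', G.Adj h h' → Cx.Cross h h' ∧ (∃ e, X.hyp e = h) ∧ ∃ e, X.hyp e = h' := by
    rintro _ _ ⟨C, i, j, h, rfl, rfl⟩
    exact ⟨Cx.hc_cross hf hs C h, ⟨_, rfl⟩, ⟨_, rfl⟩⟩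
  obtain ⟨I, a, b, M, h1, h2, h3, h4⟩ := eck G (Cu := Cu) (by
      intro a b c d ab ac bc ad bd cd
      obtain ⟨-, ⟨e0, rfl⟩, ⟨e1, rfl⟩⟩ := cr _ _ ab
      obtain ⟨-, ⟨e2, rfl⟩, ⟨e3, rfl⟩⟩ := cr _ _ cd
      refine Cx.no4cross hf hs ![e0, e1, e2, e3] fun i j hij => (cr _ _ ?_).1
      fin_cases i <;> fin_cases j <;>
        first | exact absurd rfl hij | assumption | (apply G.adj_symm; assumption))
    X.hc (fun C i j h => ⟨C, i, j, h, rfl, rfl⟩) (fun C C' h => Cx.cube_inj hf hs h)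
  obtain ⟨S, hS, hb⟩ := lattice I a b M _ h1 h2 h3
  refine ⟨S, by rw [hS, Nat.card_eq_fintype_card], hb.trans ((Nat.mul_le_mul_left 2 h4).trans ?_)⟩
  rw [Set.ncard_eq_toFinset_card' X.bdry]
  refine le_trans (mul_card_image_le_card_of_maps_to (f := X.lab)
    (s := X.bdry.toFinset.filter (fun s => X.lab s ∈ G.edgeFinset))
    (fun s hs => (mem_filter.1 hs).2) 2 ?_) (card_filter_le _ _)
  intro e he
  induction e using Sym2.ind with
  | _ u w =>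
    obtain ⟨C, i, j, h, rfl, rfl⟩ : G.Adj u w := by simpa using he
    obtain ⟨s, m, s', m', ne, l, l'⟩ := Cx.bd2 hf hs C h
    refine one_lt_card.2 ⟨s, ?_, s', ?_, ne⟩
    · simp only [mem_filter, Set.mem_toFinset]; exact ⟨⟨m, l ▸ he⟩, l⟩
    · simp only [mem_filter, Set.mem_toFinset]; exact ⟨⟨m', l' ▸ he⟩, l'⟩

end Pool.Agent.Results.MP_d6bc72_co.Yes
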